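import Mathlib
import Pool.Agent.Q220.Dep.Dep

/-!
Percolation on the oriented half line with edges of length `1` and of length `k`.
-/

set_option autoImplicit false
open MeasureTheory ProbabilityTheory
open scoped ENNReal NNReal BigOperators
open Pool.Agent.Q220.DP

namespace Pool.Agent.Q220.Tree

/-- edges of the half line: `(j, false)` goes from `j` to `j + 1`, `(j, true)` from `j` to `j + k` -/
abbrev LEdge : Type := ℕ × Bool

/-- the law on the line -/
noncomputable def lineLaw (p q : unitInterval) : Measure (LEdge → Bool) :=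
  Measure.infinitePi fun e : LEdge => bernoulliMeasure true false (if e.2 then q else p)

instance (p q : unitInterval) : IsProbabilityMeasure (lineLaw p q) := by
  unfold lineLaw; infer_instance

/-- an open step -/
def LStep (k : ℕ) (ω : LEdge → Bool) (i j : ℕ) : Prop :=
  (ω (i, false) = true ∧ j = i + 1) ∨ (ω (i, true) = true ∧ j = i + k)

/-- `j` is reached from `0` -/
def LR (k : ℕ) (ω : LEdge → Bool) (j : ℕ) : Prop := Relation.ReflTransGen (LStep k ω) 0 j

/-- the end point of an edge -/
def tgt (k : ℕ) (e : LEdge) : ℕ := if e.2 then e.1 + k else e.1 + 1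

variable {k : ℕ}

theorem LR_zero (ω : LEdge → Bool) : LR k ω 0 := Relation.ReflTransGen.refl

theorem LR_succ_iff (hk : 2 ≤ k) (ω : LEdge → Bool) (m : ℕ) :
    LR k ω (m + 1) ↔ (LR k ω m ∧ ω (m, false) = true) ∨
      (k ≤ m + 1 ∧ LR k ω (m + 1 - k) ∧ ω (m + 1 - k, true) = true) := by
  constructor
  · intro h
    rcases Relation.ReflTransGen.cases_tail h with h | ⟨c, hc, h⟩
    · omega
    · rcases h with ⟨ho, he⟩ | ⟨ho, he⟩
      · left
        have : m = c := by omega
        subst this
        exact ⟨hc, ho⟩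
      · right
        have : m + 1 - k = c := by omega
        rw [this]
        exact ⟨by omega, hc, ho⟩
  · rintro (⟨h, ho⟩ | ⟨hkm, h, ho⟩)
    · exact Relation.ReflTransGen.tail h (Or.inl ⟨ho, rfl⟩)
    · exact Relation.ReflTransGen.tail h (Or.inr ⟨ho, by omega⟩)

theorem LR_dep (hk : 2 ≤ k) (m : ℕ) : Dep {e : LEdge | tgt k e ≤ m} {ω | LR k ω m} := by
  induction m using Nat.strong_induction_on with
  | _ m ih =>
    intro ω ω' h hω
    rcases m with _ | m
    · exact LR_zero ω'
    · rw [Set.mem_ofPred_eq, LR_succ_iff hk] at hω ⊢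
      rcases hω with ⟨h1, h2⟩ | ⟨h1, h2, h3⟩
      · left
        refine ⟨(ih m (by omega)).mono (fun e he => le_trans he (Nat.le_succ m)) ω ω' h h1, ?_⟩
        rw [← h (m, false) (by simp [tgt])]
        exact h2
      · right
        refine ⟨h1, (ih (m + 1 - k) (by omega)).mono
          (fun e he => le_trans he (Nat.sub_le _ _)) ω ω' h h2, ?_⟩
        rw [← h (m + 1 - k, true) (by simp only [tgt, if_true, Set.mem_ofPred_eq]; omega)]
        exact h3

theorem tgt_finite (hk : 2 ≤ k) (m : ℕ) : {e : LEdge | tgt k e ≤ m}.Finite := by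
  refine Set.Finite.subset ((Set.finite_Iic m).prod (Set.finite_univ (α := Bool))) ?_
  rintro ⟨j, b⟩ he
  refine ⟨?_, trivial⟩
  cases b <;> simp [tgt] at he ⊢ <;> omega

theorem LR_meas (hk : 2 ≤ k) (m : ℕ) : MeasurableSet {ω : LEdge → Bool | LR k ω m} :=
  (LR_dep hk m).measurable (tgt_finite hk m)

theorem bern_true (p : unitInterval) : bernoulliMeasure true false p {true} = ENNReal.ofReal p := by
  rw [bernoulliMeasure_apply_of_mem_of_notMem _ (MeasurableSet.singleton _) (by simp) (by simp)]
  exact (ENNReal.ofReal_eq_coe_nnreal p.2.1).symm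

variable (p q : unitInterval)

theorem line_edge (e : LEdge) : lineLaw p q {ω | ω e = true}
    = ENNReal.ofReal (if e.2 then q else p : unitInterval) := by
  have h := measurePreserving_eval_infinitePi
    (fun e : LEdge => bernoulliMeasure true false (if e.2 then q else p)) e
  have e1 : {ω : LEdge → Bool | ω e = true} = (fun ω : LEdge → Bool => ω e) ⁻¹' {true} := rfl
  rw [e1]
  unfold lineLaw
  rw [h.measure_preimage (MeasurableSet.singleton _).nullMeasurableSet, bern_true]

theorem edge_dep (e : LEdge) (b : Bool) : Dep {e} {ω : LEdge → Bool | ω e = b} := by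
  intro ω ω' h hω
  rw [Set.mem_ofPred_eq] at hω ⊢
  rw [← h e rfl]
  exact hω

/-- independence of an edge and of the past -/
theorem edge_indep (hk : 2 ≤ k) {m : ℕ} {A : Set (LEdge → Bool)}
    (hA : Dep {e : LEdge | tgt k e ≤ m} A) (e : LEdge) (he : m < tgt k e) :
    (lineLaw p q).real (A ∩ {ω | ω e = true})
      = (lineLaw p q).real A * ((if e.2 then q else p : unitInterval) : ℝ) := by
  have h := Dep.indep (fun e : LEdge => bernoulliMeasure true false (if e.2 then q else p))
    (tgt_finite hk m) (Set.finite_singleton e) (by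
      rw [Set.disjoint_singleton_right]
      intro h
      exact absurd he (not_lt.mpr h)) hA (edge_dep e true)
  have h2 := line_edge p q e
  unfold lineLaw at h2 ⊢
  rw [Measure.real, h, h2, ENNReal.toReal_mul, ENNReal.toReal_ofReal (by
    split_ifs
    · exact q.2.1
    · exact p.2.1)]
  rfl

/-- the probability of reaching `m` -/
noncomputable def P (k : ℕ) (m : ℕ) : ℝ := (lineLaw p q).real {ω | LR k ω m}

/-- the probability of reaching `j` and `j + g` -/
noncomputable def PP (k : ℕ) (i j : ℕ) : ℝ := (lineLaw p q).real {ω | LR k ω i ∧ LR k ω j}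

theorem P_zero : P p q k 0 = 1 := by
  unfold P
  have : {ω : LEdge → Bool | LR k ω 0} = Set.univ := by
    ext ω; simp [LR_zero]
  rw [this]
  simp

theorem P_nonneg (m : ℕ) : 0 ≤ P p q k m := measureReal_nonneg

theorem P_le_one (m : ℕ) : P p q k m ≤ 1 := measureReal_le_one

theorem PP_le (i j : ℕ) : PP p q k i j ≤ P p q k i :=
  measureReal_mono (fun _ h => h.1) (measure_ne_top _ _)

theorem PP_nonneg (i j : ℕ) : 0 ≤ PP p q k i j := measureReal_nonneg

theorem PP_dep (hk : 2 ≤ k) {i j m : ℕ} (hi : i ≤ m) (hj : j ≤ m) :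
    Dep {e : LEdge | tgt k e ≤ m} {ω | LR k ω i ∧ LR k ω j} :=
  Dep.inter ((LR_dep hk i).mono fun _ he => le_trans he hi)
    ((LR_dep hk j).mono fun _ he => le_trans he hj)

/-- the recursion for small `m` -/
theorem P_small (hk : 2 ≤ k) {m : ℕ} (hm : m + 1 < k) : P p q k (m + 1) = P p q k m * p := by
  have h := edge_indep p q hk (LR_dep hk m) (m, false) (by simp [tgt])
  unfold P
  have e1 : {ω : LEdge → Bool | LR k ω (m + 1)} = {ω | LR k ω m} ∩ {ω | ω (m, false) = true} := by
    ext ω
    rw [Set.mem_ofPred_eq, LR_succ_iff hk]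
    constructor
    · rintro (h | h)
      · exact h
      · omega
    · exact fun h => Or.inl h
  rw [e1, h]
  simp

/-- the recursion for large `m` -/
theorem P_large (hk : 2 ≤ k) {m : ℕ} (hm : k ≤ m + 1) :
    P p q k (m + 1) = P p q k m * p + P p q k (m + 1 - k) * q - PP p q k (m + 1 - k) m * (p * q) := by
  have h1 := edge_indep p q hk (LR_dep hk m) (m, false) (by simp [tgt])
  have h2 := edge_indep p q hk ((LR_dep hk (m + 1 - k)).mono
    (fun e (he : tgt k e ≤ m + 1 - k) => (by omega : tgt k e ≤ m))) (m + 1 - k, true)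
    (by simp only [tgt, if_true]; omega)
  have hd : Dep {e : LEdge | tgt k e ≤ m ∨ e = (m, false)}
      (({ω : LEdge → Bool | LR k ω (m + 1 - k) ∧ LR k ω m}) ∩ {ω | ω (m, false) = true}) :=
    Dep.inter ((PP_dep hk (by omega) le_rfl).mono fun _ he => Or.inl he)
      ((edge_dep _ _).mono fun e he => Or.inr he)
  have h3 := edge_indep p q hk (PP_dep hk (i := m + 1 - k) (j := m) (m := m) (by omega) le_rfl)
    (m, false) (by simp [tgt])
  have h4 : (lineLaw p q).real ((({ω : LEdge → Bool | LR k ω (m + 1 - k) ∧ LR k ω m}) ∩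
      {ω | ω (m, false) = true}) ∩ {ω | ω (m + 1 - k, true) = true})
      = (lineLaw p q).real (({ω : LEdge → Bool | LR k ω (m + 1 - k) ∧ LR k ω m}) ∩
      {ω | ω (m, false) = true}) * q := by
    have h := Dep.indep (fun e : LEdge => bernoulliMeasure true false (if e.2 then q else p))
      (((tgt_finite hk m).union (Set.finite_singleton ((m, false) : LEdge))).subset (by
        rintro e (he | he)
        · exact Or.inl he
        · exact Or.inr he)) (Set.finite_singleton ((m + 1 - k, true) : LEdge)) (by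
        rw [Set.disjoint_singleton_right]
        rintro (h | h)
        · simp only [tgt, if_true] at h
          omega
        · simp at h) hd (edge_dep (m + 1 - k, true) true)
    have h2 := line_edge p q (m + 1 - k, true)
    unfold lineLaw at h2 ⊢
    rw [Measure.real, h, h2, ENNReal.toReal_mul, ENNReal.toReal_ofReal (by simpa using q.2.1)]
    simp [Measure.real]
  have e1 : {ω : LEdge → Bool | LR k ω (m + 1)} = ({ω | LR k ω m} ∩ {ω | ω (m, false) = true}) ∪
      ({ω | LR k ω (m + 1 - k)} ∩ {ω | ω (m + 1 - k, true) = true}) := by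
    ext ω
    rw [Set.mem_ofPred_eq, LR_succ_iff hk]
    constructor
    · rintro (h | h)
      · exact Or.inl h
      · exact Or.inr h.2
    · rintro (h | h)
      · exact Or.inl h
      · exact Or.inr ⟨hm, h⟩
  have e2 : ({ω : LEdge → Bool | LR k ω m} ∩ {ω | ω (m, false) = true}) ∩
      ({ω | LR k ω (m + 1 - k)} ∩ {ω | ω (m + 1 - k, true) = true})
      = (({ω : LEdge → Bool | LR k ω (m + 1 - k) ∧ LR k ω m}) ∩
      {ω | ω (m, false) = true}) ∩ {ω | ω (m + 1 - k, true) = true} := by
    ext ω
    simp only [Set.mem_inter_iff, Set.mem_ofPred_eq]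
    tauto
  have h5 := measureReal_union_add_inter (μ := lineLaw p q)
    (s := {ω : LEdge → Bool | LR k ω m} ∩ {ω | ω (m, false) = true})
    (t := {ω : LEdge → Bool | LR k ω (m + 1 - k)} ∩ {ω | ω (m + 1 - k, true) = true})
    (((LR_meas hk _)).inter ((edge_dep _ _).measurable (Set.finite_singleton _)))
  rw [e2, h4, h3, h1, h2] at h5
  unfold P PP
  rw [e1]
  simp only [Bool.false_eq_true, if_false, if_true] at h5
  linarith

/-- the joint probabilities: upper bound -/
theorem PP_upper (hk : 2 ≤ k) {j g : ℕ} (hg : g + 1 < k) :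
    PP p q k j (j + (g + 1)) ≤ P p q k j * p +
      (if k ≤ j + (g + 1) then PP p q k (j + (g + 1) - k) j * q else 0) := by
  have h1 := edge_indep p q hk (LR_dep hk j) (j + g, false) (by simp [tgt])
  simp only [Bool.false_eq_true, if_false] at h1
  have hsub : {ω : LEdge → Bool | LR k ω j ∧ LR k ω (j + (g + 1))} ⊆
      ({ω | LR k ω j} ∩ {ω | ω (j + g, false) = true}) ∪
      (if k ≤ j + (g + 1) then {ω | LR k ω (j + (g + 1) - k) ∧ LR k ω j} ∩
        {ω | ω (j + (g + 1) - k, true) = true} else ∅) := by
    rintro ω ⟨hω1, hω2⟩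
    rw [← add_assoc, LR_succ_iff hk] at hω2
    rcases hω2 with h | ⟨h1, h2, h3⟩
    · exact Or.inl ⟨hω1, h.2⟩
    · right
      rw [add_assoc] at h1 h2 h3
      rw [if_pos h1]
      exact ⟨⟨h2, hω1⟩, h3⟩
  refine (measureReal_mono hsub (measure_ne_top _ _)).trans ((measureReal_union_le _ _).trans ?_)
  rw [h1]
  split_ifs with h
  · have h2 := edge_indep p q hk (PP_dep hk (i := j + (g + 1) - k) (j := j) (m := j)
      (by omega) le_rfl) (j + (g + 1) - k, true) (by simp only [tgt, if_true]; omega)
    rw [h2]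
    simp only [if_true]
    exact le_refl _
  · simp only [measureReal_empty]
    exact le_refl _

/-- the joint probabilities: lower bound -/
theorem PP_lower (hk : 2 ≤ k) (j g : ℕ) : P p q k j * (p : ℝ) ^ g ≤ PP p q k j (j + g) := by
  induction g with
  | zero =>
    unfold P PP
    simp
  | succ g ih =>
    have h1 := edge_indep p q hk (PP_dep hk (i := j) (j := j + g) (m := j + g) (by omega) le_rfl)
      (j + g, false) (by simp [tgt])
    have hsub : {ω : LEdge → Bool | LR k ω j ∧ LR k ω (j + g)} ∩ {ω | ω (j + g, false) = true}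
        ⊆ {ω : LEdge → Bool | LR k ω j ∧ LR k ω (j + (g + 1))} := by
      rintro ω ⟨⟨h1, h2⟩, h3⟩
      exact ⟨h1, Relation.ReflTransGen.tail h2 (Or.inl ⟨h3, rfl⟩)⟩
    have h2 := measureReal_mono (μ := lineLaw p q) hsub (measure_ne_top _ _)
    rw [h1] at h2
    simp only [Bool.false_eq_true, if_false] at h2
    unfold PP at ih ⊢
    refine le_trans ?_ h2
    rw [pow_succ, ← mul_assoc]
    exact mul_le_mul_of_nonneg_right ih p.2.1

end Pool.Agent.Q220.Tree
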