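import Mathlib
import Pool.Agent.Q220.Tree.Line

/-!
Sums of `d ^ m P(m is reached)`.
-/

set_option autoImplicit false
open MeasureTheory ProbabilityTheory Filter Topology
open scoped ENNReal NNReal BigOperators

namespace Pool.Agent.Q220.Tree

variable {k : ℕ} (p q : unitInterval) (d : ℕ)

/-- the expected number of vertices of generation `m` in the cluster -/
noncomputable def w (k m : ℕ) : ℝ := (d : ℝ) ^ m * P p q k m

theorem w_zero : w p q d k 0 = 1 := by simp [w, P_zero]

theorem w_nonneg (m : ℕ) : 0 ≤ w p q d k m := mul_nonneg (by positivity) (P_nonneg p q m)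

/-- partial sums -/
noncomputable def W (k N : ℕ) : ℝ := ∑ m ∈ Finset.range (N + 1), w p q d k m

theorem W_mono : Monotone (W p q d k) := by
  intro a b hab
  exact Finset.sum_le_sum_of_subset_of_nonneg (Finset.range_mono (by omega))
    fun _ _ _ => w_nonneg p q d _

theorem W_succ (N : ℕ) : W p q d k (N + 1) = W p q d k N + w p q d k (N + 1) := by
  unfold W
  rw [Finset.sum_range_succ]

theorem W_zero : W p q d k 0 = 1 := by
  unfold W
  simp [w_zero]

theorem W_nonneg (N : ℕ) : 0 ≤ W p q d k N := Finset.sum_nonneg fun _ _ => w_nonneg p q d _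

/-- the joint sums with gap `g` -/
noncomputable def U (k g N : ℕ) : ℝ := ∑ j ∈ Finset.range (N + 1), (d : ℝ) ^ j * PP p q k j (j + g)

theorem U_nonneg (g N : ℕ) : 0 ≤ U p q d k g N :=
  Finset.sum_nonneg fun _ _ => mul_nonneg (by positivity) (PP_nonneg p q _ _)

theorem U_le (hk : 2 ≤ k) (g N : ℕ) (hg : g + 1 < k) :
    U p q d k (g + 1) N ≤ p * W p q d k N
      + q * (d : ℝ) ^ (k - (g + 1)) * U p q d k (k - (g + 1)) N := by
  unfold U W
  have h1 : ∀ j ∈ Finset.range (N + 1), (d : ℝ) ^ j * PP p q k j (j + (g + 1))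
      ≤ p * w p q d k j + (if k ≤ j + (g + 1) then
        (d : ℝ) ^ j * (PP p q k (j + (g + 1) - k) j * q) else 0) := by
    intro j _
    have h2 := mul_le_mul_of_nonneg_left (PP_upper p q hk (j := j) hg)
      (by positivity : (0 : ℝ) ≤ (d : ℝ) ^ j)
    refine h2.trans (le_of_eq ?_)
    unfold w
    split_ifs <;> ring
  refine (Finset.sum_le_sum h1).trans ?_
  rw [Finset.sum_add_distrib, ← Finset.mul_sum, Finset.mul_sum (a := (q : ℝ) * (d : ℝ) ^ (k - (g + 1)))]
  refine add_le_add_right ?_ _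
  -- reindex `j = i + (k - (g + 1))`
  set s := k - (g + 1) with hs
  have h3 : ∑ j ∈ Finset.range (N + 1), (if k ≤ j + (g + 1) then
        (d : ℝ) ^ j * (PP p q k (j + (g + 1) - k) j * q) else 0)
      = ∑ j ∈ (Finset.range (N + 1)).filter (fun j => s ≤ j),
        (d : ℝ) ^ j * (PP p q k (j - s) j * q) := by
    rw [Finset.sum_filter]
    refine Finset.sum_congr rfl fun j _ => ?_
    have e : (k ≤ j + (g + 1)) ↔ s ≤ j := by omega
    by_cases h : s ≤ j
    · rw [if_pos (e.mpr h), if_pos h]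
      have : j + (g + 1) - k = j - s := by omega
      rw [this]
    · rw [if_neg (fun h' => h (e.mp h')), if_neg h]
  rw [h3]
  have h4 : ∑ j ∈ (Finset.range (N + 1)).filter (fun j => s ≤ j),
        (d : ℝ) ^ j * (PP p q k (j - s) j * q)
      = ∑ i ∈ Finset.range (N + 1 - s), (d : ℝ) ^ (i + s) * (PP p q k i (i + s) * q) := by
    refine Finset.sum_bij' (fun j _ => j - s) (fun i _ => i + s) ?_ ?_ ?_ ?_ ?_
    · intro j hj
      rw [Finset.mem_filter, Finset.mem_range] at hj
      rw [Finset.mem_range]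
      omega
    · intro i hi
      rw [Finset.mem_range] at hi
      rw [Finset.mem_filter, Finset.mem_range]
      omega
    · intro j hj
      rw [Finset.mem_filter] at hj
      omega
    · intro i _
      omega
    · intro j hj
      rw [Finset.mem_filter] at hj
      have : j - s + s = j := by omega
      simp only [this]
  rw [h4]
  have h5 : ∑ i ∈ Finset.range (N + 1 - s), (d : ℝ) ^ (i + s) * (PP p q k i (i + s) * q)
      ≤ ∑ i ∈ Finset.range (N + 1), (d : ℝ) ^ (i + s) * (PP p q k i (i + s) * q) :=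
    Finset.sum_le_sum_of_subset_of_nonneg (Finset.range_mono (by omega))
      fun _ _ _ => mul_nonneg (by positivity) (mul_nonneg (PP_nonneg p q _ _) q.2.1)
  refine h5.trans (le_of_eq (Finset.sum_congr rfl fun i _ => ?_))
  rw [pow_add]
  ring

/-- the joint sums are of order `p W` -/
theorem U_le_W (hk : 2 ≤ k) (hd : 2 ≤ d) (hb : (q : ℝ) * (d : ℝ) ^ k ≤ 3 / 2) (g N : ℕ)
    (hg0 : 1 ≤ g) (hg : g < k) : U p q d k g N ≤ 4 * p * W p q d k N := by
  have hd' : (2 : ℝ) ≤ d := by exact_mod_cast hd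
  have key : ∀ g, 1 ≤ g → g < k → U p q d k g N ≤ p * W p q d k N
      + 3 / 4 * U p q d k (k - g) N := by
    intro g hg0 hg
    obtain ⟨g, rfl⟩ : ∃ g', g = g' + 1 := ⟨g - 1, by omega⟩
    refine (U_le p q d hk g N hg).trans (add_le_add_right ?_ _)
    refine mul_le_mul_of_nonneg_right ?_ (U_nonneg p q d _ _)
    have e : (d : ℝ) ^ k = (d : ℝ) ^ (k - (g + 1)) * (d : ℝ) ^ (g + 1) := by
      rw [← pow_add]; congr 1; omega
    rw [e] at hb
    have h2 : (2 : ℝ) ≤ (d : ℝ) ^ (g + 1) := by
      calc (2 : ℝ) ≤ d := hd'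
        _ = (d : ℝ) ^ 1 := (pow_one _).symm
        _ ≤ (d : ℝ) ^ (g + 1) := pow_le_pow_right₀ (by linarith) (by omega)
    have h3 : 0 ≤ (q : ℝ) * (d : ℝ) ^ (k - (g + 1)) := mul_nonneg q.2.1 (by positivity)
    nlinarith
  have h1 := key g hg0 hg
  have h2 := key (k - g) (by omega) (by omega)
  have e : k - (k - g) = g := by omega
  rw [e] at h2
  have hW : 0 ≤ (p : ℝ) * W p q d k N := mul_nonneg p.2.1 (W_nonneg p q d N)
  linarith

/-- sum of the recursion, as an equality up to the loss -/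
theorem W_rec (hk : 2 ≤ k) (N : ℕ) (hN : k ≤ N) :
    W p q d k N = 1 + p * d * W p q d k (N - 1) + q * (d : ℝ) ^ k * W p q d k (N - k)
      - p * q * (d : ℝ) ^ k * U p q d k (k - 1) (N - k) := by
  induction N, hN using Nat.le_induction with
  | base =>
    have h1 : ∀ m, m + 1 < k → W p q d k (m + 1) = 1 + p * d * W p q d k m := by
      intro m
      induction m with
      | zero =>
        intro hm
        rw [W_succ, W_zero, w, P_small p q hk hm, P_zero]
        ring
      | succ m ih =>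
        intro hm
        have a1 := W_succ p q d (k := k) (m + 1)
        have a2 := W_succ p q d (k := k) m
        have a3 : w p q d k (m + 1 + 1) = p * d * w p q d k (m + 1) := by
          unfold w
          rw [P_small p q hk hm]
          ring
        have a4 := ih (by omega)
        linear_combination a1 + a3 + a4 - p * d * a2
    obtain ⟨k', rfl⟩ : ∃ k', k = k' + 2 := ⟨k - 2, by omega⟩
    have h2 := P_large p q hk (m := k' + 1) (by omega)
    have e0 : k' + 1 + 1 - (k' + 2) = 0 := by omega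
    rw [e0] at h2
    have e1 : k' + 2 - 1 = k' + 1 := by omega
    have e2 : k' + 2 - (k' + 2) = 0 := by omega
    rw [e1, e2, W_zero]
    have a1 := W_succ p q d (k := k' + 2) (k' + 1)
    have a2 := W_succ p q d (k := k' + 2) k'
    have a4 := h1 k' (by omega)
    have a5 : U p q d (k' + 2) (k' + 1) 0 = PP p q (k' + 2) 0 (k' + 1) := by
      unfold U
      simp
    have a3 : w p q d (k' + 2) (k' + 1 + 1) = p * d * w p q d (k' + 2) (k' + 1)
        + q * (d : ℝ) ^ (k' + 2) - p * q * (d : ℝ) ^ (k' + 2) * PP p q (k' + 2) 0 (k' + 1) := by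
      unfold w
      rw [h2, P_zero]
      ring
    rw [a5]
    linear_combination a1 + a3 + a4 - p * d * a2
  | succ N hN ih =>
    have h2 := P_large p q hk (m := N) (by omega)
    obtain ⟨N', rfl⟩ : ∃ N', N = N' + 1 := ⟨N - 1, by omega⟩
    have e1 : N' + 1 - 1 = N' := by omega
    have e2 : N' + 1 + 1 - 1 = N' + 1 := by omega
    have e3 : N' + 1 + 1 - k = (N' + 1 - k) + 1 := by omega
    rw [e1] at ih
    rw [W_succ, ih, e2, e3, W_succ p q d N', W_succ p q d (N' + 1 - k), w, h2, e3]
    have e4 : U p q d k (k - 1) (N' + 1 - k + 1) = U p q d k (k - 1) (N' + 1 - k)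
        + (d : ℝ) ^ (N' + 1 - k + 1) * PP p q k (N' + 1 - k + 1) (N' + 1) := by
      unfold U
      rw [Finset.sum_range_succ _ (N' + 1 - k + 1)]
      congr 3
      omega
    rw [e4]
    have e5 : (d : ℝ) ^ (N' + 1 + 1) = (d : ℝ) ^ k * (d : ℝ) ^ (N' + 1 - k + 1) := by
      rw [← pow_add]; congr 1; omega
    have e6 : (d : ℝ) ^ (N' + 1 + 1) = d * (d : ℝ) ^ (N' + 1) := by ring
    unfold w
    have e7 : (d : ℝ) ^ (N' + 1 + 1) * (P p q k (N' + 1) * p + P p q k (N' + 1 - k + 1) * q
        - PP p q k (N' + 1 - k + 1) (N' + 1) * (p * q))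
        = p * d * ((d : ℝ) ^ (N' + 1) * P p q k (N' + 1))
          + q * (d : ℝ) ^ k * ((d : ℝ) ^ (N' + 1 - k + 1) * P p q k (N' + 1 - k + 1))
          - p * q * (d : ℝ) ^ k *
            ((d : ℝ) ^ (N' + 1 - k + 1) * PP p q k (N' + 1 - k + 1) (N' + 1)) := by
      rw [mul_sub, mul_add]
      congr 1
      · congr 1
        · rw [e6]; ring
        · rw [e5]; ring
      · rw [e5]; ring
    rw [e7]
    ring

/-- if the linearised weights are more than one then some generation has mean more than one -/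
theorem exists_w_gt (hk : 2 ≤ k) (hd : 2 ≤ d) (hb : (q : ℝ) * (d : ℝ) ^ k ≤ 3 / 2)
    (h : 1 < (p : ℝ) * d + q * (d : ℝ) ^ k - 4 * (p : ℝ) ^ 2 * (q * (d : ℝ) ^ k)) :
    ∃ m, 1 ≤ m ∧ 1 < w p q d k m := by
  by_contra hno
  push Not at hno
  have hle : ∀ m, w p q d k m ≤ 1 := by
    intro m
    rcases Nat.eq_zero_or_pos m with rfl | hm
    · rw [w_zero]
    · exact hno m hm
  set a : ℝ := p * d with ha
  set b : ℝ := q * (d : ℝ) ^ k with hb'
  have ha0 : 0 ≤ a := mul_nonneg p.2.1 (by positivity)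
  have hb0 : 0 ≤ b := mul_nonneg q.2.1 (by positivity)
  set ε : ℝ := a + b - 4 * (p : ℝ) ^ 2 * b - 1 with hε
  have hε0 : 0 < ε := by linarith
  -- main inequality
  have hmain : ∀ N, k ≤ N → ε * W p q d k N + 1 ≤
      a * (W p q d k N - W p q d k (N - 1)) + b * (W p q d k N - W p q d k (N - k)) := by
    intro N hN
    have h1 := W_rec p q d hk N hN
    have h2 := U_le_W p q d hk hd hb (k - 1) (N - k) (by omega) (by omega)
    have h3 : W p q d k (N - k) ≤ W p q d k N := W_mono p q d (by omega)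
    have h4 : (p : ℝ) * q * (d : ℝ) ^ k * U p q d k (k - 1) (N - k)
        ≤ 4 * (p : ℝ) ^ 2 * b * W p q d k N := by
      have h5 : 0 ≤ (p : ℝ) * b := mul_nonneg p.2.1 hb0
      have h6 : 0 ≤ 4 * (p : ℝ) * (p * b) := mul_nonneg (by linarith [p.2.1]) h5
      calc (p : ℝ) * q * (d : ℝ) ^ k * U p q d k (k - 1) (N - k)
          = (p * b) * U p q d k (k - 1) (N - k) := by rw [hb']; ring
        _ ≤ (p * b) * (4 * p * W p q d k (N - k)) := mul_le_mul_of_nonneg_left h2 h5
        _ = (4 * (p : ℝ) * (p * b)) * W p q d k (N - k) := by ring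
        _ ≤ (4 * (p : ℝ) * (p * b)) * W p q d k N := mul_le_mul_of_nonneg_left h3 h6
        _ = 4 * (p : ℝ) ^ 2 * b * W p q d k N := by ring
    have h5 : (p : ℝ) * q * (d : ℝ) ^ k * U p q d k (k - 1) (N - k)
        = 1 + a * W p q d k (N - 1) + b * W p q d k (N - k) - W p q d k N := by
      rw [ha, hb']
      linarith
    rw [h5] at h4
    rw [hε]
    nlinarith
  -- increments are bounded, hence the sums are bounded
  have hinc : ∀ N j, W p q d k (N + j) - W p q d k N ≤ j := by
    intro N j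
    induction j with
    | zero => simp
    | succ j ih =>
      rw [← add_assoc, W_succ]
      push_cast
      have := hle (N + j + 1)
      linarith
  have hbdd : ∀ N, W p q d k N ≤ max (W p q d k k) ((a + b * k) / ε) := by
    intro N
    rcases le_total k N with hN | hN
    · refine le_max_of_le_right ?_
      rw [le_div_iff₀ hε0]
      have h1 := hmain N hN
      have h2 := hinc (N - 1) 1
      have h3 := hinc (N - k) k
      rw [Nat.sub_add_cancel (by omega)] at h2
      rw [Nat.sub_add_cancel hN] at h3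
      push_cast at h2
      have h4 := mul_le_mul_of_nonneg_left h2 ha0
      have h5 := mul_le_mul_of_nonneg_left h3 hb0
      nlinarith
    · exact le_max_of_le_left (W_mono p q d hN)
  have hlim := tendsto_atTop_ciSup (W_mono p q d (k := k))
    ⟨_, by rintro _ ⟨N, rfl⟩; exact hbdd N⟩
  set L := ⨆ i, W p q d k i
  have h1 : Tendsto (fun N => W p q d k (N - 1)) atTop (𝓝 L) :=
    hlim.comp (tendsto_sub_atTop_nat 1)
  have h2 : Tendsto (fun N => W p q d k (N - k)) atTop (𝓝 L) :=
    hlim.comp (tendsto_sub_atTop_nat k)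
  have h3 : Tendsto (fun N => a * (W p q d k N - W p q d k (N - 1)) +
      b * (W p q d k N - W p q d k (N - k))) atTop (𝓝 (a * (L - L) + b * (L - L))) :=
    ((hlim.sub h1).const_mul a).add ((hlim.sub h2).const_mul b)
  rw [sub_self, mul_zero, mul_zero, add_zero] at h3
  obtain ⟨N, hN1, hN2⟩ := ((h3.eventually_lt_const one_pos).and (eventually_ge_atTop k)).exists
  have h4 := hmain N hN2
  have h5 : 0 ≤ ε * W p q d k N := mul_nonneg hε0.le (W_nonneg p q d N)
  linarith

/-- summability in the subcritical regime -/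
theorem W_bounded (hk : 2 ≤ k) (h : (p : ℝ) * d + q * (d : ℝ) ^ k * (1 - (p : ℝ) ^ k) < 1) :
    Summable (w p q d k) := by
  set a : ℝ := p * d with ha
  set b : ℝ := q * (d : ℝ) ^ k with hb'
  have ha0 : 0 ≤ a := mul_nonneg p.2.1 (by positivity)
  have hb0 : 0 ≤ b := mul_nonneg q.2.1 (by positivity)
  have hp0 : (0 : ℝ) ≤ p := p.2.1
  have hpk0 : 0 ≤ (p : ℝ) ^ k := pow_nonneg hp0 k
  have hpk : (p : ℝ) ^ k ≤ 1 := pow_le_one₀ hp0 p.2.2
  set ε : ℝ := 1 - (a + b * (1 - (p : ℝ) ^ k)) with hε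
  have hε0 : 0 < ε := by linarith
  have hU : ∀ N, (p : ℝ) ^ (k - 1) * W p q d k N ≤ U p q d k (k - 1) N := by
    intro N
    unfold W U
    rw [Finset.mul_sum]
    refine Finset.sum_le_sum fun j _ => ?_
    unfold w
    have := mul_le_mul_of_nonneg_left (PP_lower p q hk j (k - 1))
      (by positivity : (0 : ℝ) ≤ (d : ℝ) ^ j)
    calc (p : ℝ) ^ (k - 1) * ((d : ℝ) ^ j * P p q k j)
        = (d : ℝ) ^ j * (P p q k j * (p : ℝ) ^ (k - 1)) := by ring
      _ ≤ _ := this
  have hbd : ∀ N, k ≤ N → W p q d k N ≤ 1 / ε := by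
    intro N hN
    have h1 := W_rec p q d hk N hN
    have h2 := hU (N - k)
    have h3 : W p q d k (N - k) ≤ W p q d k N := W_mono p q d (by omega)
    have h4 : W p q d k (N - 1) ≤ W p q d k N := W_mono p q d (by omega)
    have hpb : 0 ≤ (p : ℝ) * b := mul_nonneg hp0 hb0
    have h5 : b * (p : ℝ) ^ k * W p q d k (N - k) ≤ (p * b) * U p q d k (k - 1) (N - k) := by
      have h6 := mul_le_mul_of_nonneg_left h2 hpb
      have e : (p : ℝ) ^ k = p * (p : ℝ) ^ (k - 1) := by
        rw [← pow_succ']; congr 1; omega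
      rw [e]
      calc b * (p * (p : ℝ) ^ (k - 1)) * W p q d k (N - k)
          = (p * b) * ((p : ℝ) ^ (k - 1) * W p q d k (N - k)) := by ring
        _ ≤ _ := h6
    have h7 : W p q d k N = 1 + a * W p q d k (N - 1) + b * W p q d k (N - k)
        - (p * b) * U p q d k (k - 1) (N - k) := by
      rw [h1, ha, hb']
      ring
    have h8 : b * (1 - (p : ℝ) ^ k) * W p q d k (N - k) ≤ b * (1 - (p : ℝ) ^ k) * W p q d k N :=
      mul_le_mul_of_nonneg_left h3 (mul_nonneg hb0 (by linarith))
    have h9 := mul_le_mul_of_nonneg_left h4 ha0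
    rw [le_div_iff₀ hε0]
    nlinarith
  refine summable_of_sum_range_le (c := 1 / ε) (fun m => w_nonneg p q d m) fun n => ?_
  refine le_trans ?_ (hbd (max n k) (le_max_right _ _))
  unfold W
  exact Finset.sum_le_sum_of_subset_of_nonneg (Finset.range_mono
    (le_trans (le_max_left n k) (Nat.le_succ _))) fun _ _ _ => w_nonneg p q d _

end Pool.Agent.Q220.Tree
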