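import Mathlib
import Pool.Agent.Q220.Tree.Sums

/-!
Oriented percolation on the `d`-ary tree with edges of length `1` and of length `k`: definitions,
and the comparison with the half line.
-/

set_option autoImplicit false
open MeasureTheory ProbabilityTheory Filter Topology
open scoped ENNReal NNReal BigOperators
open Pool.Agent.Q220.DP

namespace Pool.Agent.Q220.Tree

/-- Vertices of the rooted `d`-ary tree: finite words in the letters `0, ..., d - 1`. The children
of `v` are the words `v ++ [i]`, the descendants `k` generations below `v` are the words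
`v ++ u` with `u` of length `k`. -/
abbrev Vertex (d : ℕ) : Type := List (Fin d)

/-- Edges: `(v, inl i)` goes from `v` to its child `v ++ [i]` (length `1`), and `(v, inr u)` goes from
`v` to its descendant `v ++ u` (length `k`). -/
abbrev Edge (d k : ℕ) : Type := Vertex d × (Fin d ⊕ (Fin k → Fin d))

/-- Configurations: the value `true` means open. -/
abbrev Config (d k : ℕ) : Type := Edge d k → Bool

/-- The law: the edges are independent, the edges of length `1` are open with probability `p` and
the edges of length `k` with probability `q`. -/
noncomputable def law (d k : ℕ) (p q : unitInterval) : Measure (Config d k) :=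
  Measure.infinitePi fun e : Edge d k =>
    bernoulliMeasure true false (Sum.elim (fun _ => p) (fun _ => q) e.2)

/-- There is an open edge from `v` to `w`. -/
def Step {d k : ℕ} (ω : Config d k) (v w : Vertex d) : Prop :=
  (∃ i : Fin d, ω (v, Sum.inl i) = true ∧ w = v ++ [i]) ∨
    (∃ u : Fin k → Fin d, ω (v, Sum.inr u) = true ∧ w = v ++ List.ofFn u)

/-- There is an oriented path of open edges from `v` to `w`. -/
def Reach {d k : ℕ} (ω : Config d k) (v w : Vertex d) : Prop := Relation.ReflTransGen (Step ω) v w

/-- The cluster of the root. -/
def cluster {d k : ℕ} (ω : Config d k) : Set (Vertex d) := {w | Reach ω [] w}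

/-- The percolation probability. -/
noncomputable def theta (d k : ℕ) (p q : unitInterval) : ℝ :=
  (law d k p q).real {ω | (cluster ω).Infinite}

/-- The critical curve `q_c(p) = inf {q ∈ (0, 1) : θ(p, q) > 0}`, for `p ∈ [0, 1]`. -/
noncomputable def qc (d k : ℕ) (p : ℝ) : ℝ :=
  sInf {q : ℝ | ∃ (hp : p ∈ unitInterval) (hq : q ∈ Set.Ioo (0 : ℝ) 1),
    0 < theta d k ⟨p, hp⟩ ⟨q, Set.Ioo_subset_Icc_self hq⟩}

variable {d k : ℕ} (p q : unitInterval)

instance : IsProbabilityMeasure (law d k p q) := by
  unfold law; infer_instance

/-- the vertices of a ray -/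
def ray (v : Vertex d) (x : ℕ → Fin d) (j : ℕ) : Vertex d := v ++ List.ofFn (fun i : Fin j => x i)

theorem ray_length (v : Vertex d) (x : ℕ → Fin d) (j : ℕ) : (ray v x j).length = v.length + j := by
  simp [ray]

theorem ray_zero (v : Vertex d) (x : ℕ → Fin d) : ray v x 0 = v := by simp [ray]

theorem ray_succ (v : Vertex d) (x : ℕ → Fin d) (j : ℕ) : ray v x (j + 1) = ray v x j ++ [x j] := by
  unfold ray
  rw [List.ofFn_succ', List.concat_eq_append, List.append_assoc]
  rfl

theorem ray_add (v : Vertex d) (x : ℕ → Fin d) (j l : ℕ) :
    ray v x (j + l) = ray v x j ++ List.ofFn (fun i : Fin l => x (j + i)) := by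
  induction l with
  | zero => simp
  | succ l ih =>
    rw [← add_assoc, ray_succ, ih, List.ofFn_succ', List.concat_eq_append, List.append_assoc]
    rfl

/-- the edges of a ray -/
def rayEdge (k : ℕ) (v : Vertex d) (x : ℕ → Fin d) (e : LEdge) : Edge d k :=
  if e.2 then (ray v x e.1, Sum.inr fun i => x (e.1 + i)) else (ray v x e.1, Sum.inl (x e.1))

theorem rayEdge_inj (v : Vertex d) (x : ℕ → Fin d) : Function.Injective (rayEdge k v x) := by
  rintro ⟨j, b⟩ ⟨j', b'⟩ h
  have h1 : (rayEdge k v x (j, b)).1 = (rayEdge k v x (j', b')).1 := congrArg Prod.fst h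
  have e1 : ∀ j b, (rayEdge k v x (j, b)).1 = ray v x j := by
    intro j b
    cases b <;> rfl
  rw [e1, e1] at h1
  have h2 := congrArg List.length h1
  rw [ray_length, ray_length] at h2
  have h3 : j = j' := by omega
  subst h3
  cases b <;> cases b' <;> simp [rayEdge] at h ⊢

/-- the configuration along a ray -/
def along (v : Vertex d) (x : ℕ → Fin d) (ω : Config d k) : LEdge → Bool :=
  fun e => ω (rayEdge k v x e)

theorem map_along (v : Vertex d) (x : ℕ → Fin d) :
    (law d k p q).map (along v x) = lineLaw p q := by
  unfold law lineLaw
  have h := Measure.map_infinitePi_infinitePi_of_inj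
    (P := fun e : Edge d k => bernoulliMeasure true false (Sum.elim (fun _ => p) (fun _ => q) e.2))
    (f := rayEdge k v x) (rayEdge_inj v x)
  have e : (fun e : LEdge => bernoulliMeasure true false
      (Sum.elim (fun _ => p) (fun _ => q) (rayEdge k v x e).2))
      = fun e : LEdge => bernoulliMeasure true false (if e.2 then q else p) := by
    funext ⟨j, b⟩
    cases b <;> rfl
  rw [← e, ← h]
  rfl

theorem along_measurable (v : Vertex d) (x : ℕ → Fin d) : Measurable (along (k := k) v x) := by
  unfold along
  fun_prop

theorem step_length {ω : Config d k} (hk : 2 ≤ k) {v w : Vertex d} (h : Step ω v w) :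
    v.length < w.length ∧ v <+: w := by
  rcases h with ⟨i, _, rfl⟩ | ⟨u, _, rfl⟩
  · exact ⟨by simp, List.prefix_append _ _⟩
  · exact ⟨by simp; omega, List.prefix_append _ _⟩

theorem reach_prefix {ω : Config d k} (hk : 2 ≤ k) {v w : Vertex d} (h : Reach ω v w) : v <+: w := by
  induction h with
  | refl => exact List.prefix_refl _
  | tail _ h ih => exact ih.trans (step_length hk h).2

/-- a prefix of a vertex of the ray below `v` is on the ray -/
theorem prefix_ray {v w : Vertex d} {x : ℕ → Fin d} {m : ℕ} (h1 : v <+: w) (h2 : w <+: ray v x m) :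
    ∃ j, j ≤ m ∧ w = ray v x j := by
  obtain ⟨u, rfl⟩ := h1
  have hl := h2.length_le
  rw [ray_length, List.length_append] at hl
  refine ⟨u.length, by omega, ?_⟩
  have h3 : v ++ u = (ray v x m).take (v.length + u.length) := by
    rw [List.prefix_iff_eq_take] at h2
    rw [List.length_append] at h2
    exact h2
  obtain ⟨l, hl'⟩ : ∃ l, m = u.length + l := ⟨m - u.length, by omega⟩
  rw [h3, hl', ray_add, List.take_append_of_le_length (by rw [ray_length]), List.take_of_length_le
    (by rw [ray_length])]

theorem reach_ray_iff (hk : 2 ≤ k) (ω : Config d k) (v : Vertex d) (x : ℕ → Fin d) (m : ℕ) :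
    Reach ω v (ray v x m) ↔ LR k (along v x ω) m := by
  constructor
  · intro h
    have key : ∀ w, Reach ω v w → ∀ m, w = ray v x m → LR k (along v x ω) m := by
      intro w hw
      induction hw with
      | refl =>
        intro m hm
        have := congrArg List.length hm
        rw [ray_length] at this
        have h0 : m = 0 := by omega
        subst h0
        exact LR_zero _
      | tail hvb hbc ih =>
        rename_i b c
        intro m hm
        subst hm
        obtain ⟨j, hj, hb⟩ := prefix_ray (reach_prefix hk hvb) (step_length hk hbc).2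
        have h1 := ih j hb
        subst hb
        refine Relation.ReflTransGen.tail h1 ?_
        rcases hbc with ⟨i, ho, he⟩ | ⟨u, ho, he⟩
        · have h2 := congrArg List.length he
          rw [List.length_append, ray_length, ray_length, List.length_singleton] at h2
          have h3 : m = j + 1 := by omega
          subst h3
          rw [ray_succ] at he
          have h4 : x j = i := by simpa using he
          subst h4
          exact Or.inl ⟨ho, rfl⟩
        · have h2 := congrArg List.length he
          rw [List.length_append, ray_length, ray_length, List.length_ofFn] at h2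
          have h3 : m = j + k := by omega
          subst h3
          rw [ray_add, List.append_cancel_left_eq] at he
          have h4 := List.ofFn_injective he
          subst h4
          exact Or.inr ⟨ho, rfl⟩
    exact key _ h m rfl
  · intro h
    unfold LR at h
    induction h with
    | refl => rw [ray_zero]; exact Relation.ReflTransGen.refl
    | tail hab hbc ih =>
      rename_i b c
      refine Relation.ReflTransGen.tail ih ?_
      rcases hbc with ⟨ho, rfl⟩ | ⟨ho, rfl⟩
      · exact Or.inl ⟨x b, ho, ray_succ v x b⟩
      · exact Or.inr ⟨fun i => x (b + i), ho, ray_add v x b k⟩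

/-- every finite word is a beginning of an infinite word -/
theorem exists_ray (hd : 2 ≤ d) (v : Vertex d) {m : ℕ} (u : Fin m → Fin d) :
    ∃ x : ℕ → Fin d, v ++ List.ofFn u = ray v x m := by
  refine ⟨fun i => if h : i < m then u ⟨i, h⟩ else ⟨0, by omega⟩, ?_⟩
  unfold ray
  congr 2
  funext i
  simp

/-- the probability that `v ++ u` is reached from `v` -/
theorem reach_prob (hd : 2 ≤ d) (hk : 2 ≤ k) (v : Vertex d) {m : ℕ} (u : Fin m → Fin d) :
    (law d k p q).real {ω | Reach ω v (v ++ List.ofFn u)} = P p q k m := by
  obtain ⟨x, hx⟩ := exists_ray hd v u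
  rw [hx]
  unfold P
  rw [← map_along p q v x, map_measureReal_apply (along_measurable v x) (LR_meas hk m)]
  congr 1
  ext ω
  exact reach_ray_iff hk ω v x m

end Pool.Agent.Q220.Tree
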