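import Mathlib
import Pool.Agent.Q220.Tree.Model

/-!
Survival through an embedded branching process, and extinction when the mean cluster is finite.
-/

set_option autoImplicit false
open MeasureTheory ProbabilityTheory Filter Topology
open scoped ENNReal NNReal BigOperators
open Pool.Agent.Q220.DP

namespace Pool.Agent.Q220.Tree

variable {d k : ℕ} (p q : unitInterval)

/-- edges which start in the first `n` generations below `v` -/
def Dn (k : ℕ) (v : Vertex d) (n : ℕ) : Set (Edge d k) :=
  {e | v <+: e.1 ∧ e.1.length < v.length + n}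

theorem Dn_finite (v : Vertex d) (n : ℕ) : (Dn k v n).Finite := by
  have h1 : {w : Vertex d | w.length < v.length + n}.Finite := List.finite_length_lt _ _
  refine (h1.prod (Set.finite_univ (α := Fin d ⊕ (Fin k → Fin d)))).subset ?_
  rintro ⟨w, e⟩ ⟨_, h⟩
  exact ⟨h, trivial⟩

theorem reach_congr (hk : 2 ≤ k) {ω ω' : Config d k} {v : Vertex d} {n : ℕ}
    (h : ∀ e ∈ Dn k v n, ω e = ω' e) {w : Vertex d} (hw : w.length ≤ v.length + n)
    (hr : Reach ω v w) : Reach ω' v w := by
  induction hr with
  | refl => exact Relation.ReflTransGen.refl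
  | tail hab hbc ih =>
    rename_i b c
    have hl := (step_length hk hbc).1
    have hp := reach_prefix hk hab
    refine Relation.ReflTransGen.tail (ih (by omega)) ?_
    rcases hbc with ⟨i, ho, he⟩ | ⟨u, ho, he⟩
    · exact Or.inl ⟨i, by rw [← h _ ⟨hp, by simp only; omega⟩]; exact ho, he⟩
    · exact Or.inr ⟨u, by rw [← h _ ⟨hp, by simp only; omega⟩]; exact ho, he⟩

open Classical in
/-- the descendants `m` generations below `v` reached from `v` -/
noncomputable def G (m : ℕ) (v : Vertex d) (ω : Config d k) : Finset (Fin m → Fin d) :=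
  Finset.univ.filter fun u => Reach ω v (v ++ List.ofFn u)

theorem mem_G {m : ℕ} {v : Vertex d} {ω : Config d k} {u : Fin m → Fin d} :
    u ∈ G m v ω ↔ Reach ω v (v ++ List.ofFn u) := by
  simp [G]

theorem G_dep (hk : 2 ≤ k) (m : ℕ) (v : Vertex d) (U : Finset (Fin m → Fin d)) :
    Dep (Dn k v m) {ω | G m v ω = U} := by
  intro ω ω' h hω
  rw [Set.mem_ofPred_eq] at hω ⊢
  rw [← hω]
  ext u
  rw [mem_G, mem_G]
  have hl : (v ++ List.ofFn u).length ≤ v.length + m := by simp
  exact ⟨reach_congr hk (fun e he => (h e he).symm) hl, reach_congr hk h hl⟩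

/-- extinction before generation `n` of the embedded process -/
def Ext (m : ℕ) : ℕ → Vertex d → Set (Config d k)
  | 0, _ => ∅
  | n + 1, v => {ω | ∀ u ∈ G m v ω, ω ∈ Ext m n (v ++ List.ofFn u)}

theorem Dn_sub {v : Vertex d} {m n : ℕ} (u : Fin m → Fin d) :
    Dn k (v ++ List.ofFn u) n ⊆ Dn k v (m + n) := by
  rintro e ⟨h1, h2⟩
  refine ⟨(List.prefix_append _ _).trans h1, ?_⟩
  simp only [List.length_append, List.length_ofFn] at h2
  omega

theorem Ext_dep (hk : 2 ≤ k) (m n : ℕ) (v : Vertex d) : Dep (Dn k v (n * m)) (Ext (k := k) m n v) := by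
  induction n generalizing v with
  | zero => intro _ _ _ h; exact h.elim
  | succ n ih =>
    intro ω ω' h hω u hu
    have hsub : Dn k v m ⊆ Dn k v ((n + 1) * m) := by
      intro e he
      refine ⟨he.1, ?_⟩
      have := he.2
      rw [Nat.succ_mul]
      omega
    have hG : G m v ω = G m v ω' :=
      ((G_dep hk m v (G m v ω')).mono hsub) ω' ω (fun e he => (h e he).symm) rfl
    rw [← hG] at hu
    refine ((ih (v ++ List.ofFn u)).mono ?_) ω ω' h (hω u hu)
    rw [Nat.succ_mul, add_comm]
    exact Dn_sub u

theorem Ext_mono (m n : ℕ) (v : Vertex d) : Ext (k := k) m n v ⊆ Ext m (n + 1) v := by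
  induction n generalizing v with
  | zero => intro _ h; exact h.elim
  | succ n ih => exact fun ω h u hu => ih _ (h u hu)

theorem not_ext {m n : ℕ} {v : Vertex d} {ω : Config d k} (h : ω ∉ Ext m n v) :
    ∃ w, Reach ω v w ∧ w.length = v.length + n * m := by
  induction n generalizing v with
  | zero => exact ⟨v, Relation.ReflTransGen.refl, by simp⟩
  | succ n ih =>
    have h' : ¬ ∀ u ∈ G m v ω, ω ∈ Ext m n (v ++ List.ofFn u) := h
    push Not at h'
    obtain ⟨u, hu, hn⟩ := h'
    obtain ⟨w, hw, hl⟩ := ih hn
    refine ⟨w, (mem_G.mp hu).trans hw, ?_⟩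
    rw [hl, List.length_append, List.length_ofFn, Nat.succ_mul]
    omega

theorem pow_bound (s : ℝ) (hs0 : 0 ≤ s) (hs1 : s ≤ 1) (z : ℕ) :
    (1 - s) ^ z ≤ 1 - s * z + s ^ 2 * z ^ 2 := by
  induction z with
  | zero => simp
  | succ z ih =>
    have hz : (0 : ℝ) ≤ z := Nat.cast_nonneg z
    rw [pow_succ]
    have h1 := mul_le_mul_of_nonneg_right ih (by linarith : 0 ≤ 1 - s)
    refine h1.trans ?_
    push_cast
    have h2 : 0 ≤ s ^ 3 * (z : ℝ) ^ 2 := by positivity
    have h3 : 0 ≤ s ^ 2 * ((z : ℝ) + 1) := by positivity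
    nlinarith

theorem mean_G (hd : 2 ≤ d) (hk : 2 ≤ k) (m : ℕ) (v : Vertex d) :
    ∫ ω, ((G m v ω).card : ℝ) ∂(law d k p q) = w p q d k m := by
  classical
  have h1 : ∀ ω : Config d k, ((G m v ω).card : ℝ)
      = ∑ u : Fin m → Fin d, ({ω | Reach ω v (v ++ List.ofFn u)} : Set (Config d k)).indicator 1 ω := by
    intro ω
    unfold G
    rw [Finset.card_filter, Nat.cast_sum]
    refine Finset.sum_congr rfl fun u _ => ?_
    by_cases h : Reach ω v (v ++ List.ofFn u) <;> simp [Set.indicator, h]
  have hm : ∀ u : Fin m → Fin d,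
      MeasurableSet ({ω | Reach ω v (v ++ List.ofFn u)} : Set (Config d k)) := by
    intro u
    refine Dep.measurable (Dn_finite (k := k) v m) ?_
    intro ω ω' h hω
    exact reach_congr hk h (by simp) hω
  simp_rw [h1]
  rw [integral_finsetSum]
  · have h2 : ∀ u : Fin m → Fin d, ∫ ω, ({ω | Reach ω v (v ++ List.ofFn u)} :
        Set (Config d k)).indicator (1 : Config d k → ℝ) ω ∂(law d k p q) = P p q k m := by
      intro u
      rw [integral_indicator_one (hm u), reach_prob p q hd hk v u]
    rw [Finset.sum_congr rfl fun u _ => h2 u]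
    simp [w]
  · intro u _
    exact (integrable_const (1 : ℝ)).indicator (hm u)

theorem survive (hd : 2 ≤ d) (hk : 2 ≤ k) (m : ℕ) (hm : 1 ≤ m) (hw : 1 < w p q d k m) :
    0 < theta d k p q := by
  classical
  set M : ℝ := (d : ℝ) ^ m with hM
  have hM1 : 1 ≤ M := one_le_pow₀ (by exact_mod_cast (by omega : 1 ≤ d))
  have hwM : w p q d k m ≤ M := by
    unfold w
    exact mul_le_of_le_one_right (by positivity) (P_le_one p q m)
  set s : ℝ := (w p q d k m - 1) / M ^ 2 with hs
  have hs0 : 0 < s := div_pos (by linarith) (by positivity)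
  have hs1 : s < 1 := by
    rw [hs, div_lt_one (by positivity)]
    nlinarith
  have hcard : ∀ v (ω : Config d k), ((G m v ω).card : ℝ) ≤ M := by
    intro v ω
    have h1 : (G m v ω).card ≤ Fintype.card (Fin m → Fin d) := Finset.card_le_univ _
    have h2 : Fintype.card (Fin m → Fin d) = d ^ m := by simp
    rw [h2] at h1
    rw [hM]
    exact_mod_cast h1
  have hGm : ∀ v, Measurable fun ω : Config d k => ((G m v ω).card : ℝ) := by
    intro v
    let _ : MeasurableSpace (Finset (Fin m → Fin d)) := ⊤
    have h1 : Measurable (fun ω : Config d k => G m v ω) :=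
      measurable_to_countable' fun U => (G_dep hk m v U).measurable (Dn_finite v m)
    exact (measurable_from_top (f := fun U : Finset (Fin m → Fin d) => (U.card : ℝ))).comp h1
  -- the generating function
  have hgen : ∀ v, ∫⁻ ω : Config d k, ENNReal.ofReal (1 - s) ^ (G m v ω).card ∂(law d k p q)
      ≤ ENNReal.ofReal (1 - s) := by
    intro v
    have h1 : ∀ ω : Config d k, ENNReal.ofReal (1 - s) ^ (G m v ω).card
        ≤ ENNReal.ofReal (1 - s * (G m v ω).card + s ^ 2 * M ^ 2) := by
      intro ω
      rw [← ENNReal.ofReal_pow (by linarith)]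
      refine ENNReal.ofReal_le_ofReal ((pow_bound s hs0.le hs1.le _).trans ?_)
      have h2 : ((G m v ω).card : ℝ) ^ 2 ≤ M ^ 2 :=
        pow_le_pow_left₀ (Nat.cast_nonneg _) (hcard v ω) 2
      have := mul_le_mul_of_nonneg_left h2 (sq_nonneg s)
      linarith
    refine (lintegral_mono h1).trans ?_
    have hint : Integrable (fun ω : Config d k => ((G m v ω).card : ℝ)) (law d k p q) :=
      Integrable.of_bound (hGm v).aestronglyMeasurable M
        (Eventually.of_forall fun ω => by
          rw [Real.norm_of_nonneg (Nat.cast_nonneg _)]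
          exact hcard v ω)
    have hint2 : Integrable (fun ω : Config d k => 1 - s * ((G m v ω).card : ℝ) + s ^ 2 * M ^ 2)
        (law d k p q) := ((integrable_const (1 : ℝ)).sub (hint.const_mul s)).add
        (integrable_const _)
    rw [← ofReal_integral_eq_lintegral_ofReal hint2 (Eventually.of_forall fun ω => by
      have h3 := pow_bound s hs0.le hs1.le (G m v ω).card
      have h4 : 0 ≤ (1 - s) ^ (G m v ω).card := pow_nonneg (by linarith) _
      have h2 : ((G m v ω).card : ℝ) ^ 2 ≤ M ^ 2 :=
        pow_le_pow_left₀ (Nat.cast_nonneg _) (hcard v ω) 2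
      have := mul_le_mul_of_nonneg_left h2 (sq_nonneg s)
      show (0 : ℝ) ≤ 1 - s * ((G m v ω).card : ℝ) + s ^ 2 * M ^ 2
      linarith)]
    refine ENNReal.ofReal_le_ofReal ?_
    have i1 : ∫ ω : Config d k, (1 - s * ((G m v ω).card : ℝ) + s ^ 2 * M ^ 2) ∂(law d k p q)
        = ∫ ω : Config d k, (1 - s * ((G m v ω).card : ℝ)) ∂(law d k p q)
          + ∫ _ω : Config d k, s ^ 2 * M ^ 2 ∂(law d k p q) :=
      integral_add (f := fun ω : Config d k => 1 - s * ((G m v ω).card : ℝ))
        (g := fun _ => s ^ 2 * M ^ 2) ((integrable_const (1 : ℝ)).sub (hint.const_mul s))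
        (integrable_const _)
    rw [i1, integral_sub (integrable_const (1 : ℝ)) (hint.const_mul s), integral_const_mul,
      mean_G p q hd hk m v]
    simp only [integral_const, probReal_univ, one_smul]
    have h5 : s * M ^ 2 = w p q d k m - 1 := by
      rw [hs]
      field_simp
    nlinarith
  -- extinction probabilities
  have hext : ∀ n v, law d k p q (Ext m n v) ≤ ENNReal.ofReal (1 - s) := by
    intro n
    induction n with
    | zero => intro v; simp [Ext]
    | succ n ih =>
      intro v
      have hdj : Disjoint (Dn k v m) (⋃ u : Fin m → Fin d, Dn k (v ++ List.ofFn u) (n * m)) := by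
        rw [Set.disjoint_left]
        intro e he he'
        obtain ⟨u, hu⟩ := Set.mem_iUnion.mp he'
        have h1 := hu.1.length_le
        rw [List.length_append, List.length_ofFn] at h1
        have h2 := he.2
        omega
      have hdec := decouple
        (fun e : Edge d k => bernoulliMeasure true false (Sum.elim (fun _ => p) (fun _ => q) e.2))
        (D1 := Dn k v m) (D2 := ⋃ u : Fin m → Fin d, Dn k (v ++ List.ofFn u) (n * m))
        (Dn_finite v m) (Set.finite_iUnion fun u => Dn_finite _ _) hdj (fun ω => G m v ω)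
        (G_dep hk m v) (fun U => ⋂ u ∈ U, Ext m n (v ++ List.ofFn u)) (by
          intro U
          exact Dep.iInter fun u => Dep.iInter fun _ => (Ext_dep hk m n _).mono
            (Set.subset_iUnion (fun u : Fin m → Fin d => Dn k (v ++ List.ofFn u) (n * m)) u))
      have e1 : {ω : Config d k | ω ∈ ⋂ u ∈ G m v ω, Ext m n (v ++ List.ofFn u)}
          = Ext m (n + 1) v := by
        ext ω
        simp [Ext]
      rw [e1] at hdec
      refine (le_of_eq hdec).trans (le_trans (lintegral_mono fun ω => ?_) (hgen v))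
      have hprod := Dep.prod
        (fun e : Edge d k => bernoulliMeasure true false (Sum.elim (fun _ => p) (fun _ => q) e.2))
        (G m v ω) (fun u => Dn k (v ++ List.ofFn u) (n * m)) (fun u _ => Dn_finite _ _) (by
          intro u _ u' _ hne
          rw [Set.disjoint_left]
          intro e he he'
          have h1 := List.prefix_of_prefix_length_le he.1 he'.1 (by simp)
          have h2 := h1.eq_of_length (by simp)
          rw [List.append_cancel_left_eq] at h2
          exact hne (List.ofFn_injective h2))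
        (fun u => Ext m n (v ++ List.ofFn u)) (fun u _ => Ext_dep hk m n _)
      refine (le_of_eq hprod).trans ?_
      rw [← Finset.prod_const]
      exact Finset.prod_le_prod' fun u _ => ih _
  -- conclusion
  have hUmeas : ∀ n, MeasurableSet (Ext (k := k) m n ([] : Vertex d)) := fun n =>
    (Ext_dep hk m n []).measurable (Dn_finite _ _)
  have hU : law d k p q (⋃ n, Ext m n []) ≤ ENNReal.ofReal (1 - s) := by
    have hmono : Monotone fun n => Ext (k := k) m n ([] : Vertex d) :=
      monotone_nat_of_le_succ fun n => Ext_mono m n []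
    rw [hmono.measure_iUnion]
    exact iSup_le fun n => hext n []
  have hsub : (⋃ n, Ext m n [])ᶜ ⊆ {ω : Config d k | (cluster ω).Infinite} := by
    intro ω hω
    simp only [Set.mem_compl_iff, Set.mem_iUnion, not_exists] at hω
    rw [Set.mem_ofPred_eq]
    intro hfin
    obtain ⟨B, hB⟩ := (hfin.image List.length).bddAbove
    obtain ⟨w, hw1, hw2⟩ := not_ext (hω (B + 1))
    have h1 := hB ⟨w, hw1, rfl⟩
    rw [hw2] at h1
    simp only [List.length_nil, zero_add] at h1
    nlinarith
  unfold theta Measure.real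
  refine ENNReal.toReal_pos ?_ (measure_ne_top _ _)
  intro h0
  have h1 : law d k p q ((⋃ n, Ext m n [])ᶜ) = 0 := measure_mono_null hsub h0
  rw [measure_compl (MeasurableSet.iUnion hUmeas) (measure_ne_top _ _), measure_univ] at h1
  have h2 : (1 : ℝ≥0∞) ≤ ENNReal.ofReal (1 - s) := by
    rw [tsub_eq_zero_iff_le] at h1
    exact h1.trans hU
  rw [← ENNReal.ofReal_one, ENNReal.ofReal_le_ofReal_iff (by linarith)] at h2
  linarith

/-- no percolation when the mean cluster size is finite -/
theorem die (hd : 2 ≤ d) (hk : 2 ≤ k) (hs : Summable (w p q d k)) : theta d k p q = 0 := by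
  classical
  have hsum : ∑' v : Vertex d, law d k p q {ω | Reach ω [] v} ≠ ⊤ := by
    have e1 : ∑' v : Vertex d, law d k p q {ω | Reach ω [] v}
        = ∑' x : (Σ m : ℕ, (Fin m → Fin d)), law d k p q {ω | Reach ω [] (List.ofFn x.2)} :=
      (List.equivSigmaTuple.symm.tsum_eq (fun v : Vertex d => law d k p q {ω | Reach ω [] v})).symm
    rw [e1, ENNReal.tsum_sigma (f := fun (m : ℕ) (u : Fin m → Fin d) =>
      law d k p q {ω | Reach ω [] (List.ofFn u)})]
    have e2 : ∀ m : ℕ, ∑' u : Fin m → Fin d, law d k p q {ω | Reach ω [] (List.ofFn u)}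
        = ENNReal.ofReal (w p q d k m) := by
      intro m
      have h1 : ∀ u : Fin m → Fin d, law d k p q {ω | Reach ω [] (List.ofFn u)}
          = ENNReal.ofReal (P p q k m) := by
        intro u
        rw [← reach_prob p q hd hk [] u, List.nil_append, ofReal_measureReal]
      rw [tsum_fintype, Finset.sum_congr rfl fun u _ => h1 u]
      unfold w
      rw [ENNReal.ofReal_mul (by positivity), ENNReal.ofReal_pow (by positivity)]
      simp
    simp_rw [e2]
    exact hs.tsum_ofReal_ne_top
  have h1 := ae_finite_setOfPred_mem hsum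
  unfold theta Measure.real
  have h2 : law d k p q {ω | (cluster ω).Infinite} = 0 := ae_iff.mp h1
  rw [h2]
  simp

end Pool.Agent.Q220.Tree
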